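import Mathlib
import Pool.Agent.TH461.FGK.Sup
import Pool.Agent.H847R3.SuppE

/-!
Measures invariant under `x ↦ p x` only: the images under `x ↦ q ^ n x` and the open sets.
-/

set_option autoImplicit false

open MeasureTheory Filter Topology Set

namespace Pool.Agent.Zk24.IM

abbrev T := UnitAddCircle

lemma meas_smul (s : ℕ) : Measurable (fun x : T => s • x) :=
  (continuous_const_smul s).measurable

lemma mp_pow {μ : Measure T} {m : ℕ} (hm : MeasurePreserving (fun x : T => m • x) μ μ) (i : ℕ) :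
    MeasurePreserving (fun x : T => (m ^ i) • x) μ μ := by
  induction i with
  | zero =>
    have e : (fun x : T => (m ^ 0) • x) = id := by funext x; simp
    rw [e]; exact MeasurePreserving.id μ
  | succ i ih =>
    have e : (fun x : T => (m ^ (i + 1)) • x) = (fun x : T => (m ^ i) • x) ∘ fun x => m • x := by
      funext x
      simp only [Function.comp]
      rw [pow_succ, mul_nsmul']
    rw [e]
    exact ih.comp hm

lemma map_inv_nat {p : ℕ} {ν : Measure T} (h : MeasurePreserving (fun x : T => p • x) ν ν)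
    (d : ℕ) : MeasurePreserving (fun x : T => p • x) (ν.map (fun x : T => d • x))
      (ν.map (fun x : T => d • x)) := by
  refine ⟨meas_smul p, ?_⟩
  rw [Measure.map_map (meas_smul p) (meas_smul d)]
  have e : ((fun x : T => p • x) ∘ fun x : T => d • x) = (fun x : T => d • x) ∘ fun x => p • x := by
    funext x
    simp only [Function.comp]
    exact smul_comm _ _ _
  rw [e, ← Measure.map_map (meas_smul d) (meas_smul p), h.map_eq]

/-- an orbit that stays near `0` is eventually at `0` -/
lemma zero_of_small {q : ℕ} (hq : 2 ≤ q) {y : ℕ → T}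
    (hy : ∀ n, y (n + 1) = q • y n) {n0 : ℕ} (h : ∀ n, n0 ≤ n → ‖y n‖ ≤ 1 / (2 * q)) :
    y n0 = 0 := by
  by_contra hne
  have hq2 : (2 : ℝ) ≤ q := by exact_mod_cast hq
  have hpos : 0 < ‖y n0‖ := norm_pos_iff.2 hne
  have hg : ∀ j : ℕ, 2 ^ j * ‖y n0‖ ≤ ‖y (n0 + j)‖ := by
    intro j
    induction j with
    | zero => simp
    | succ j ih =>
      have h1 := h (n0 + j) (by omega)
      have h4 : (q : ℝ) * ‖y (n0 + j)‖ ≤ 1 / 2 := by
        calc (q : ℝ) * ‖y (n0 + j)‖ ≤ q * (1 / (2 * q)) := by
              gcongr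
          _ = 1 / 2 := by field_simp
      have h5 : ‖q • y (n0 + j)‖ = q * ‖y (n0 + j)‖ := by
        obtain ⟨r, hr1, hr⟩ := Pool.Agent.H847R3.XpXq.exists_rep_norm (y (n0 + j))
        rw [← hr] at h4 ⊢
        rw [← hr1, ← AddCircle.coe_nsmul, nsmul_eq_mul]
        have h1 : |(q : ℝ) * r| = q * |r| := by rw [abs_mul, Nat.abs_cast]
        rw [← h1]
        refine (AddCircle.norm_coe_eq_abs_iff (1 : ℝ) one_ne_zero).2 ?_
        rw [h1, abs_one]
        exact h4
      rw [← add_assoc, hy, h5, pow_succ]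
      have := norm_nonneg (y (n0 + j))
      nlinarith
  obtain ⟨j, hj⟩ := pow_unbounded_of_one_lt (1 / ‖y n0‖) (by norm_num : (1 : ℝ) < 2)
  have h1 := hg j
  have h2 : ‖y (n0 + j)‖ ≤ 1 / 2 := by
    simpa using AddCircle.norm_le_half_period (1 : ℝ) (x := y (n0 + j)) one_ne_zero
  rw [div_lt_iff₀ hpos] at hj
  linarith

/-- one invariance is enough for the counting inequality -/
lemma one_sided {p q : ℕ} (hp : 2 ≤ p) (hq : 2 ≤ q) {r r' R t : ℝ} {N : ℕ}
    (hrp : ((p : ℝ) + 1) * r ≤ 1) (hG : Pool.Agent.H819.G2 p q r r' R N) {A B I : ℕ}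
    (hA : R < (A + 1) * Real.log p) (hB : R < (B + 1) * Real.log q) (hI : t ≤ I * Real.log p)
    (ν : Measure T) [IsProbabilityMeasure ν]
    (hνp : MeasurePreserving (fun x : T => p • x) ν ν) :
    (N : ℝ) * ν.real {x : T | Real.exp (-t) ≤ ‖(q ^ B) • x‖} ≤
      (2 * A + I + 1) * ∑ j ∈ Finset.range (2 * B + 1), ν.real {x : T | r' ≤ ‖(q ^ j) • x‖} := by
  set E : Set T := {x : T | Real.exp (-t) ≤ ‖(q ^ B) • x‖} with hE
  set F : ℕ → Set T := fun j => {x : T | r' ≤ ‖(q ^ j) • x‖} with hF
  have hEm : MeasurableSet E :=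
    (isClosed_le continuous_const (continuous_const_smul (q ^ B)).norm).measurableSet
  have hFm : ∀ j, MeasurableSet (F j) := fun j =>
    (isClosed_le continuous_const (continuous_const_smul (q ^ j)).norm).measurableSet
  set W := Finset.range (2 * A + I + 1) ×ˢ Finset.range (2 * B + 1) with hW
  have key : (N : ENNReal) * ν E ≤ (2 * A + I + 1 : ℕ) * ∑ j ∈ Finset.range (2 * B + 1), ν (F j) := by
    have h1 : ∀ y : T,
        ((fun x : T => (p ^ A) • x) ⁻¹' E).indicator (fun _ => (N : ENNReal)) y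
        ≤ ∑ u ∈ W, ((fun x : T => (p ^ u.1) • x) ⁻¹' F u.2).indicator
            (fun _ => (1 : ENNReal)) y := by
      intro y
      by_cases hy : y ∈ (fun x : T => (p ^ A) • x) ⁻¹' E
      · rw [Set.indicator_of_mem hy]
        have hy' : Real.exp (-t) ≤ ‖(p ^ A * q ^ B) • y‖ := by
          have : Real.exp (-t) ≤ ‖(q ^ B) • (p ^ A) • y‖ := hy
          rwa [← mul_nsmul', mul_comm] at this
        have h2 := Pool.Agent.H819.count_far2 hp hq hrp hG hA hB hI y hy'
        have h3 : ∑ u ∈ W, ((fun x : T => (p ^ u.1) • x) ⁻¹' F u.2).indicator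
            (fun _ => (1 : ENNReal)) y
            = ((W.filter (fun u => r' ≤ ‖(p ^ u.1 * q ^ u.2) • y‖)).card : ENNReal) := by
          rw [Finset.card_eq_sum_ones, Finset.sum_filter, Nat.cast_sum]
          refine Finset.sum_congr rfl (fun u _ => ?_)
          by_cases hu : r' ≤ ‖(p ^ u.1 * q ^ u.2) • y‖
          · have hm : y ∈ (fun x : T => (p ^ u.1) • x) ⁻¹' F u.2 := by
              change r' ≤ ‖(q ^ u.2) • (p ^ u.1) • y‖
              rwa [← mul_nsmul', mul_comm]
            rw [Set.indicator_of_mem hm, if_pos hu]; simp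
          · have hm : y ∉ (fun x : T => (p ^ u.1) • x) ⁻¹' F u.2 := by
              change ¬ r' ≤ ‖(q ^ u.2) • (p ^ u.1) • y‖
              rwa [← mul_nsmul', mul_comm]
            rw [Set.indicator_of_notMem hm, if_neg hu]; simp
        rw [h3]
        exact_mod_cast h2
      · rw [Set.indicator_of_notMem hy]; exact bot_le
    have h2 := lintegral_mono (μ := ν) h1
    rw [lintegral_indicator_const ((mp_pow hνp A).measurable hEm),
      (mp_pow hνp A).measure_preimage hEm.nullMeasurableSet,
      lintegral_finsetSum _ (fun u _ => by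
        exact (measurable_const.indicator ((mp_pow hνp u.1).measurable (hFm u.2))))] at h2
    refine h2.trans ?_
    have h3 : ∀ u ∈ W, ∫⁻ y, ((fun x : T => (p ^ u.1) • x) ⁻¹' F u.2).indicator
            (fun _ => (1 : ENNReal)) y ∂ν = ν (F u.2) := by
      intro u _
      rw [lintegral_indicator_const ((mp_pow hνp u.1).measurable (hFm u.2)),
        (mp_pow hνp u.1).measure_preimage (hFm u.2).nullMeasurableSet, one_mul]
    rw [Finset.sum_congr rfl h3, hW, Finset.sum_product]
    simp only [Finset.sum_const, Finset.card_range, nsmul_eq_mul]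
    exact le_rfl
  have hfin : ((2 * A + I + 1 : ℕ) : ENNReal) * ∑ j ∈ Finset.range (2 * B + 1), ν (F j) ≠ ⊤ := by
    refine ENNReal.mul_ne_top (ENNReal.natCast_ne_top _) ?_
    rw [ENNReal.sum_ne_top]
    exact fun _ _ => measure_ne_top _ _
  have h4 := ENNReal.toReal_mono hfin key
  rw [ENNReal.toReal_mul, ENNReal.toReal_mul, ENNReal.toReal_sum (fun _ _ => measure_ne_top _ _)]
    at h4
  simp only [ENNReal.toReal_natCast] at h4
  push_cast at h4
  exact h4

end Pool.Agent.Zk24.IM
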