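import Mathlib
import Pool.Agent.Zk24.IM.Ineq

/-!
Measures invariant under `x ↦ p x` only: the images under `x ↦ q ^ n x` and the open sets.
-/

set_option autoImplicit false

open MeasureTheory Filter Topology Set
open Pool.Agent.H847R3.XpXq (hit_cover KU KU_finite KU_inv exists_den norm_smul_le)

namespace Pool.Agent.Zk24.IM

/-- **The inequality.** -/
theorem ineq {p q : ℕ} (hp : 2 ≤ p) (hq : 2 ≤ q)
    (hirr : Irrational (Real.log (p : ℝ) / Real.log (q : ℝ))) {s : ℝ} (hs0 : 0 ≤ s)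
    (hs : Pool.Agent.TH461.FGK.Gr2 p q s) {U : Set T} (hU : IsOpen U) (hne : U.Nonempty) :
    ∃ d : ℕ, 1 ≤ d ∧ ∃ M : ℕ, ∀ l : ℝ, 0 ≤ l → ∃ C : ℝ, 0 < C ∧ ∃ n0 : ℕ, 1 ≤ n0 ∧
      ∀ n : ℕ, n0 ≤ n → ∀ ν : Measure T, IsProbabilityMeasure ν →
        MeasurePreserving (fun x : T => p • x) ν ν →
          ν.real {x : T | Real.exp (-(l * n)) ≤ ‖(d * q ^ n) • x‖} ≤
            C * (n : ℝ) ^ (1 - s) *
              ∑ j ∈ Finset.range (2 * n + M), ν.real {x : T | (q ^ j) • x ∈ U} := by
  obtain ⟨r0, r, hr, hrp, a, ha, b, hb, hG⟩ := hs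
  obtain ⟨d, hd, hdK⟩ := exists_den hp (KU_finite hp hq hirr hU hne) (KU_inv p q U)
  have hd0 : (0 : ℝ) < d := by exact_mod_cast hd
  have hlq : 0 < Real.log q := Real.log_pos (by exact_mod_cast (by omega : 1 < q))
  have hlp : 0 < Real.log p := Real.log_pos (by exact_mod_cast (by omega : 1 < p))
  obtain ⟨S, hS⟩ := hit_cover (p := p) (q := q) hU (show 0 < r / d by positivity)
  set M' : ℕ := ∑ s ∈ S, s.2 with hM'
  have hMs : ∀ s ∈ S, s.2 ≤ M' := fun s hs =>
    Finset.single_le_sum (f := fun s : ℕ × ℕ => s.2) (fun _ _ => Nat.zero_le _) hs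
  refine ⟨d, hd, M' + 1, fun l hl => ?_⟩
  set K : ℝ := 3 * Real.log q / Real.log p + l / Real.log p + 2 with hK
  have hK0 : 0 < K := by positivity
  set b' : ℝ := b * (Real.log q / a) ^ s with hb'
  have hb'0 : 0 < b' := by positivity
  refine ⟨K * (S.card + 1) / b', by positivity, ⌈a / Real.log q⌉₊ + 1, by omega,
    fun n hn ν hν hνp => ?_⟩
  have hn1 : (1 : ℝ) ≤ n := by exact_mod_cast (by omega : 1 ≤ n)
  have hnR : a / Real.log q ≤ n := by
    refine (Nat.le_ceil _).trans ?_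
    exact_mod_cast (by omega : ⌈a / Real.log q⌉₊ ≤ n)
  set Tm : ℝ := (n + 1 / 2) * Real.log q / a with hTm
  have hTn : n * (Real.log q / a) ≤ Tm := by
    rw [hTm, ← mul_div_assoc]
    gcongr
    linarith
  have hT1 : 1 ≤ Tm := by
    refine le_trans ?_ hTn
    rw [div_le_iff₀ hlq] at hnR
    rw [← mul_div_assoc, le_div_iff₀ ha]
    linarith
  obtain ⟨N, hGN, hN⟩ := hG Tm hT1
  have hR : a * Tm = (n + 1 / 2) * Real.log q := by
    rw [hTm]
    field_simp
  set A := ⌊a * Tm / Real.log p⌋₊ with hA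
  set I := ⌈l * n / Real.log p⌉₊ with hI
  have hA1 : a * Tm < (A + 1) * Real.log p := by
    have := Nat.lt_floor_add_one (a * Tm / Real.log p)
    rwa [div_lt_iff₀ hlp] at this
  have hB1 : a * Tm < ((n : ℕ) + 1) * Real.log q := by
    rw [hR]
    gcongr
    norm_num
  have hI1 : l * n ≤ I * Real.log p := by
    have := Nat.le_ceil (l * n / Real.log p)
    rwa [div_le_iff₀ hlp] at this
  have hA2 : (A : ℝ) ≤ a * Tm / Real.log p := Nat.floor_le (by positivity)
  have hI2 : (I : ℝ) ≤ l * n / Real.log p + 1 := (Nat.ceil_lt_add_one (by positivity)).le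
  have hmd : Measurable fun x : T => d • x := meas_smul d
  have hν' : IsProbabilityMeasure (ν.map fun x : T => d • x) :=
    Measure.isProbabilityMeasure_map hmd.aemeasurable
  have key := one_sided hp hq hrp hGN hA1 hB1 hI1 _ (map_inv_nat hνp d)
  have hm1 : MeasurableSet {x : T | Real.exp (-(l * n)) ≤ ‖(q ^ n) • x‖} :=
    (isClosed_le continuous_const (continuous_const_smul (q ^ n)).norm).measurableSet
  have hm2 : ∀ j : ℕ, MeasurableSet {x : T | r ≤ ‖(q ^ j) • x‖} := fun j =>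
    (isClosed_le continuous_const (continuous_const_smul (q ^ j)).norm).measurableSet
  have e1 : (ν.map fun x : T => d • x).real {x : T | Real.exp (-(l * n)) ≤ ‖(q ^ n) • x‖}
      = ν.real {x : T | Real.exp (-(l * n)) ≤ ‖(d * q ^ n) • x‖} := by
    rw [map_measureReal_apply hmd hm1]
    congr 1
    ext x
    change Real.exp (-(l * n)) ≤ ‖(q ^ n) • d • x‖ ↔ Real.exp (-(l * n)) ≤ ‖(d * q ^ n) • x‖
    rw [← mul_nsmul', mul_comm (q ^ n) d]
  rw [e1] at key
  -- far from `0` means an early visit to `U`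
  have hUm : ∀ j : ℕ, MeasurableSet {x : T | (q ^ j) • x ∈ U} := fun j =>
    (meas_smul (q ^ j)) hU.measurableSet
  have e2 : ∀ j : ℕ, (ν.map fun x : T => d • x).real {x : T | r ≤ ‖(q ^ j) • x‖}
      ≤ ∑ s ∈ S, ν.real {x : T | (q ^ (s.2 + j)) • x ∈ U} := by
    intro j
    rw [map_measureReal_apply hmd (hm2 j)]
    have hsub : (fun x : T => d • x) ⁻¹' {x : T | r ≤ ‖(q ^ j) • x‖} ⊆
        ⋃ s ∈ S, (fun x : T => (p ^ s.1) • x) ⁻¹' {x : T | (q ^ (s.2 + j)) • x ∈ U} := by
      intro x hx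
      have hx : r ≤ ‖(q ^ j) • d • x‖ := hx
      obtain ⟨s, hs, hsU⟩ := hS ((q ^ j) • x) (fun k hk => by
        have h4 : (q ^ j) • d • x = d • ((q ^ j) • x - k) := by
          rw [nsmul_sub, hdK k hk, sub_zero, smul_comm]
        rw [h4] at hx
        have h6 := norm_smul_le d ((q ^ j) • x - k)
        rw [dist_eq_norm, div_le_iff₀ hd0]
        linarith)
      refine mem_iUnion₂.2 ⟨s, hs, ?_⟩
      change (q ^ (s.2 + j)) • (p ^ s.1) • x ∈ U
      have e : (q ^ (s.2 + j)) • (p ^ s.1) • x = (p ^ s.1 * q ^ s.2) • (q ^ j) • x := by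
        simp only [← mul_nsmul']
        congr 1
        rw [pow_add]
        ring
      rw [e]
      exact hsU
    refine (measureReal_mono hsub (measure_ne_top _ _)).trans
      ((measureReal_biUnion_finset_le _ _).trans ?_)
    refine Finset.sum_le_sum fun s _ => le_of_eq ?_
    rw [measureReal_def, (mp_pow hνp s.1).measure_preimage (hUm _).nullMeasurableSet]
    rfl
  have e3 : ∑ j ∈ Finset.range (2 * n + 1),
      (ν.map fun x : T => d • x).real {x : T | r ≤ ‖(q ^ j) • x‖} ≤
      S.card * ∑ j ∈ Finset.range (2 * n + (M' + 1)), ν.real {x : T | (q ^ j) • x ∈ U} := by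
    refine (Finset.sum_le_sum fun j _ => e2 j).trans ?_
    rw [Finset.sum_comm]
    calc ∑ s ∈ S, ∑ j ∈ Finset.range (2 * n + 1), ν.real {x : T | (q ^ (s.2 + j)) • x ∈ U}
        ≤ ∑ s ∈ S, ∑ j ∈ Finset.range (2 * n + (M' + 1)), ν.real {x : T | (q ^ j) • x ∈ U} := by
          refine Finset.sum_le_sum fun s hs => ?_
          have h1 := hMs s hs
          have h2 : ∑ j ∈ Finset.range (2 * n + 1), ν.real {x : T | (q ^ (s.2 + j)) • x ∈ U}
              = ∑ j ∈ Finset.Ico s.2 (s.2 + (2 * n + 1)), ν.real {x : T | (q ^ j) • x ∈ U} := by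
            rw [Finset.sum_Ico_eq_sum_range]
            simp
          rw [h2]
          refine Finset.sum_le_sum_of_subset_of_nonneg ?_ fun _ _ _ => measureReal_nonneg
          intro j hj
          rw [Finset.mem_Ico] at hj
          rw [Finset.mem_range]
          omega
      _ = _ := by rw [Finset.sum_const, nsmul_eq_mul]
  set SU := ∑ j ∈ Finset.range (2 * n + (M' + 1)), ν.real {x : T | (q ^ j) • x ∈ U} with hSU
  have hSU0 : 0 ≤ SU := Finset.sum_nonneg fun _ _ => measureReal_nonneg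
  set f := ν.real {x : T | Real.exp (-(l * n)) ≤ ‖(d * q ^ n) • x‖} with hf
  have hf0 : 0 ≤ f := measureReal_nonneg
  have h2 : (2 * (A : ℝ) + I + 1) ≤ K * n := by
    have h3 : 2 * (a * Tm / Real.log p) ≤ 3 * Real.log q / Real.log p * n := by
      rw [hR, ← mul_div_assoc, div_le_iff₀ hlp]
      have e : 3 * Real.log q / Real.log p * n * Real.log p = 3 * Real.log q * n := by
        field_simp
      rw [e]
      nlinarith
    have h4 : l * n / Real.log p = l / Real.log p * n := by ring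
    rw [hK]
    nlinarith
  have hNn : b' * (n : ℝ) ^ s ≤ N := by
    refine le_trans ?_ hN
    rw [hb', mul_assoc, ← Real.mul_rpow (by positivity) (by positivity)]
    refine mul_le_mul_of_nonneg_left ?_ hb.le
    refine Real.rpow_le_rpow (by positivity) ?_ hs0
    linarith
  have h5 : b' * (n : ℝ) ^ s * f ≤ K * n * ((S.card + 1) * SU) := by
    calc b' * (n : ℝ) ^ s * f ≤ N * f := mul_le_mul_of_nonneg_right hNn hf0
      _ ≤ _ := key
      _ ≤ K * n * (S.card * SU) := by
          refine mul_le_mul h2 e3 (Finset.sum_nonneg fun _ _ => measureReal_nonneg)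
            (by positivity)
      _ ≤ _ := by
          gcongr
          linarith
  have h6 : (n : ℝ) ^ (1 - s) = n / (n : ℝ) ^ s := by
    rw [Real.rpow_sub (by linarith), Real.rpow_one]
  have h7 : 0 < (n : ℝ) ^ s := Real.rpow_pos_of_pos (by linarith) _
  have h8 : f ≤ (K * n * ((S.card + 1) * SU)) / (b' * (n : ℝ) ^ s) := by
    rw [le_div_iff₀ (by positivity)]
    linarith
  refine h8.trans (le_of_eq ?_)
  rw [h6]
  field_simp

end Pool.Agent.Zk24.IM
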