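import Mathlib
import Pool.Agent.Zk24.IM.Main

/-!
Measures invariant under `x ↦ p x` only: unless the measure is atomic, the images under `x ↦ q ^ n x`
visit every open set with a frequency which is not polynomially small.
-/

set_option autoImplicit false

open MeasureTheory Filter Topology Set

namespace Pool.Agent.Zk24.IM

lemma norm_nsmul_le' (n : ℕ) (x : T) : ‖n • x‖ ≤ n * ‖x‖ := norm_nsmul_le

/-- times `2 ^ k` are enough to detect torsion points -/
lemma torsion_of_small {q d : ℕ} (hq : 2 ≤ q) (hd : 1 ≤ d) {x : T} {k0 : ℕ}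
    (h : ∀ k, k0 ≤ k → ‖(d * q ^ 2 ^ k) • x‖ < Real.exp (-(3 * Real.log q * (2 ^ k : ℕ)))) :
    IsOfFinAddOrder x := by
  have hq0 : (0 : ℝ) < q := by positivity
  have hq2 : (2 : ℝ) ≤ q := by exact_mod_cast hq
  have hlq : 0 < Real.log q := Real.log_pos (by linarith)
  have h1 : (d * q ^ 2 ^ k0) • x = 0 := by
    refine zero_of_small hq (y := fun j => (d * q ^ j) • x) (n0 := 2 ^ k0) (fun n => ?_)
      fun n hn => ?_
    · rw [← mul_nsmul']
      congr 1
      ring
    · have hn0 : n ≠ 0 := by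
        have : 0 < 2 ^ k0 := by positivity
        omega
      set k := Nat.log 2 n with hk
      have hk1 : 2 ^ k ≤ n := Nat.pow_log_le_self 2 hn0
      have hk2 : n < 2 ^ (k + 1) := Nat.lt_pow_succ_log_self (by norm_num) n
      have hk0 : k0 ≤ k := by
        rw [hk]
        exact (Nat.le_log_iff_pow_le (by norm_num) hn0).2 hn
      have h2 := h k hk0
      have e : (d * q ^ n) • x = (q ^ (n - 2 ^ k)) • (d * q ^ 2 ^ k) • x := by
        rw [← mul_nsmul']
        congr 1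
        have e3 : n = (n - 2 ^ k) + 2 ^ k := by omega
        calc d * q ^ n = d * q ^ ((n - 2 ^ k) + 2 ^ k) := by rw [← e3]
          _ = _ := by rw [pow_add]; ring
      have h3 := norm_nsmul_le' (q ^ (n - 2 ^ k)) ((d * q ^ 2 ^ k) • x)
      have h4 : ((q ^ (n - 2 ^ k) : ℕ) : ℝ) ≤ Real.exp (Real.log q * (2 ^ k : ℕ)) := by
        rw [mul_comm, Real.exp_nat_mul, Real.exp_log hq0]
        push_cast
        refine pow_le_pow_right₀ (by linarith) ?_
        rw [pow_succ] at hk2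
        omega
      rw [e]
      refine h3.trans ?_
      calc ((q ^ (n - 2 ^ k) : ℕ) : ℝ) * ‖(d * q ^ 2 ^ k) • x‖
          ≤ Real.exp (Real.log q * (2 ^ k : ℕ)) * Real.exp (-(3 * Real.log q * (2 ^ k : ℕ))) := by
            gcongr
        _ = Real.exp (-(2 * Real.log q * (2 ^ k : ℕ))) := by
            rw [← Real.exp_add]
            congr 1
            ring
        _ ≤ Real.exp (-(2 * Real.log q)) := by
            apply Real.exp_le_exp.2
            have h5 : (1 : ℝ) ≤ ((2 ^ k : ℕ) : ℝ) := by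
              exact_mod_cast Nat.one_le_two_pow
            nlinarith
        _ = 1 / (q * q) := by
            rw [Real.exp_neg, two_mul, Real.exp_add, Real.exp_log hq0, one_div]
        _ ≤ 1 / (2 * q) := by
            apply one_div_le_one_div_of_le (by positivity)
            nlinarith
  rw [isOfFinAddOrder_iff_nsmul_eq_zero]
  exact ⟨d * q ^ 2 ^ k0, by positivity, h1⟩

theorem unbounded {p q : ℕ} (hp : 2 ≤ p) (hq : 2 ≤ q)
    (hirr : Irrational (Real.log (p : ℝ) / Real.log (q : ℝ))) {κ₀ : ℝ} (h1 : κ₀ < 1)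
    (hGr : ∀ κ : ℝ, κ₀ < κ → Pool.Agent.TH461.FGK.Gr2 p q (2 - κ)) {U : Set T} (hU : IsOpen U)
    (hne : U.Nonempty) {ν : Measure T} [IsProbabilityMeasure ν]
    (hν : MeasurePreserving (fun x : T => p • x) ν ν)
    (hat : ¬ ∀ᵐ x ∂ν, IsOfFinAddOrder x) {κ : ℝ} (hκ : κ₀ < κ) (R : ℝ) :
    ∃ᶠ N : ℕ in atTop, R * (N : ℝ) ^ (1 - κ) ≤
      ∑ n ∈ Finset.range N, ν.real {x : T | (q ^ n) • x ∈ U} := by
  by_contra hcon
  rw [not_frequently] at hcon
  apply hat
  have hq2 : (2 : ℝ) ≤ q := by exact_mod_cast hq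
  have hlq : 0 < Real.log q := Real.log_pos (by linarith)
  set κ' : ℝ := min κ 1 with hκ'
  have hκ'0 : κ₀ < κ' := lt_min hκ h1
  have hκ'1 : κ' ≤ 1 := min_le_right _ _
  obtain ⟨κ1, hκ1, hκ1'⟩ := exists_between hκ'0
  set R' : ℝ := max R 0 with hR'
  have hR'0 : 0 ≤ R' := le_max_right _ _
  obtain ⟨N1, hN1⟩ := eventually_atTop.1 hcon
  have hbd : ∀ N : ℕ, N1 ≤ N → 1 ≤ N →
      ∑ n ∈ Finset.range N, ν.real {x : T | (q ^ n) • x ∈ U} ≤ R' * (N : ℝ) ^ (1 - κ') := by
    intro N hN hN'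
    have h2 := not_le.1 (hN1 N hN)
    have hNR : (1 : ℝ) ≤ N := by exact_mod_cast hN'
    have h3 : (N : ℝ) ^ (1 - κ) ≤ (N : ℝ) ^ (1 - κ') := by
      apply Real.rpow_le_rpow_of_exponent_le hNR
      have := min_le_left κ 1
      linarith
    calc _ ≤ R * (N : ℝ) ^ (1 - κ) := h2.le
      _ ≤ R' * (N : ℝ) ^ (1 - κ) := by
          gcongr
          exact le_max_left _ _
      _ ≤ _ := by gcongr
  obtain ⟨d, hd, M, H⟩ := ineq hp hq hirr (s := 2 - κ1) (by linarith) (hGr κ1 hκ1) hU hne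
  obtain ⟨C, hC, n0, hn0, H⟩ := H (3 * Real.log q) (by positivity)
  set E : ℕ → Set T := fun n =>
    {x : T | Real.exp (-(3 * Real.log q * n)) ≤ ‖(d * q ^ n) • x‖} with hE
  have hEb : ∀ n : ℕ, n0 + N1 + M ≤ n → ν.real (E n) ≤
      C * R' * 3 ^ (1 - κ') * (n : ℝ) ^ (κ1 - κ') := by
    intro n hn
    have hn1 : 1 ≤ n := by omega
    have hnR : (1 : ℝ) ≤ n := by exact_mod_cast hn1
    have h2 := H n (by omega) ν inferInstance hν
    have h3 := hbd (2 * n + M) (by omega) (by omega)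
    have h4 : ((2 * n + M : ℕ) : ℝ) ^ (1 - κ') ≤ (3 * (n : ℝ)) ^ (1 - κ') := by
      apply Real.rpow_le_rpow (by positivity)
      · have : ((2 * n + M : ℕ) : ℝ) ≤ ((3 * n : ℕ) : ℝ) := by
          exact_mod_cast (by omega : 2 * n + M ≤ 3 * n)
        push_cast at this ⊢
        exact this
      · linarith
    have h5 : (3 * (n : ℝ)) ^ (1 - κ') = 3 ^ (1 - κ') * (n : ℝ) ^ (1 - κ') :=
      Real.mul_rpow (by norm_num) (by positivity)
    have h6 : (n : ℝ) ^ (κ1 - κ') = (n : ℝ) ^ (1 - (2 - κ1)) * (n : ℝ) ^ (1 - κ') := by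
      rw [← Real.rpow_add (by linarith)]
      congr 1
      ring
    calc ν.real (E n) ≤ C * (n : ℝ) ^ (1 - (2 - κ1)) *
          ∑ j ∈ Finset.range (2 * n + M), ν.real {x : T | (q ^ j) • x ∈ U} := h2
      _ ≤ C * (n : ℝ) ^ (1 - (2 - κ1)) * (R' * (3 ^ (1 - κ') * (n : ℝ) ^ (1 - κ'))) := by
          rw [← h5]
          gcongr
          exact h3.trans (by gcongr)
      _ = _ := by rw [h6]; ring
  -- the times `2 ^ k`
  have hsum : Summable fun k : ℕ => ν.real (E (2 ^ k)) := by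
    have hr0 : (0 : ℝ) < 2 ^ (κ1 - κ') := by positivity
    have hr1 : (2 : ℝ) ^ (κ1 - κ') < 1 :=
      Real.rpow_lt_one_of_one_lt_of_neg (by norm_num) (by linarith)
    have hg : Summable fun k : ℕ => C * R' * 3 ^ (1 - κ') * ((2 : ℝ) ^ (κ1 - κ')) ^ k :=
      (summable_geometric_of_lt_one hr0.le hr1).mul_left _
    refine Summable.of_norm_bounded_eventually_nat hg ?_
    filter_upwards [eventually_ge_atTop (n0 + N1 + M)] with k hk
    have h2 : n0 + N1 + M ≤ 2 ^ k := hk.trans (Nat.lt_two_pow_self).le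
    have h3 := hEb (2 ^ k) h2
    rw [Real.norm_eq_abs, abs_of_nonneg measureReal_nonneg]
    have h4 : ((2 ^ k : ℕ) : ℝ) ^ (κ1 - κ') = ((2 : ℝ) ^ (κ1 - κ')) ^ k := by
      push_cast
      rw [← Real.rpow_natCast 2 k, ← Real.rpow_mul (by norm_num), mul_comm,
        Real.rpow_mul (by norm_num), Real.rpow_natCast]
    rwa [h4] at h3
  have hBC : ∑' k, ν (E (2 ^ k)) ≠ ⊤ := by
    have h2 := hsum.tsum_ofReal_ne_top
    have h3 : (fun k : ℕ => ν (E (2 ^ k))) = fun k => ENNReal.ofReal (ν.real (E (2 ^ k))) := by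
      funext k
      exact (ofReal_measureReal (measure_ne_top _ _)).symm
    rw [h3]
    exact h2
  filter_upwards [ae_eventually_notMem hBC] with x hx
  obtain ⟨k0, hk0⟩ := eventually_atTop.1 hx
  refine torsion_of_small hq hd (k0 := k0) fun k hk => ?_
  exact not_le.1 (hk0 k hk)

end Pool.Agent.Zk24.IM
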